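import Pool.Agent.N721.SR.Kst

/-!
# The Turán number of `K_{r,r}`: expander form

For every `r ≥ 2`: `ex (n, K_{r,r}) ≥ c n ^ (2 - 1 / r)` for some `c > 0` and all large `n` if and
only if there is `C` such that for every `d` there is a graph without `K_{r,r}` with at most
`C d ^ (r / (r - 1))` vertices and all degrees between `d` and `C d` such that at least `d |X|`
edges leave every set `X` of at most half of the vertices, and such that the Laplacian has
spectral gap at least `d / C`.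
-/

set_option autoImplicit false

namespace Pool.Agent.Results.MP_a4c586_co.ExpanderForm

open Finset Pool.Agent.N721.SR

theorem result :
    ∀ r : ℕ, 2 ≤ r →
      ((∃ c : ℝ, 0 < c ∧ ∀ᶠ n : ℕ in Filter.atTop, c * (n : ℝ) ^ (2 - 1 / (r : ℝ)) ≤
          (SimpleGraph.extremalNumber n (completeBipartiteGraph (Fin r) (Fin r)) : ℝ)) ↔
        ∃ C : ℝ, ∀ d : ℕ, 1 ≤ d → ∃ (m : ℕ) (G : SimpleGraph (Fin m)) (_ : DecidableRel G.Adj),
          0 < m ∧ (m : ℝ) ≤ C * (d : ℝ) ^ ((r : ℝ) / ((r : ℝ) - 1)) ∧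
          (completeBipartiteGraph (Fin r) (Fin r)).Free G ∧
          (∀ x, d ≤ G.degree x ∧ (G.degree x : ℝ) ≤ C * d) ∧
          -- edge expansion
          (∀ X : Finset (Fin m), 2 * #X ≤ m →
            d * #X ≤ #((X ×ˢ Xᶜ).filter fun p => G.Adj p.1 p.2)) ∧
          -- spectral gap
          ∀ f : Fin m → ℝ, ∑ x, f x = 0 →
            d * ∑ x, f x ^ 2 ≤ C * ∑ x, ∑ y, G.adjMatrix ℝ x y * (f x - f y) ^ 2) := by
  classical
  intro r hr
  have hr0 : (0 : ℝ) < r := by
    have : 0 < r := by omega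
    exact_mod_cast this
  have hr2 : (2 : ℝ) ≤ r := by exact_mod_cast hr
  set H := completeBipartiteGraph (Fin r) (Fin r) with hH
  set z : Fin r := ⟨0, by omega⟩
  have hP : Her (FreeCls H) := freeCls_her H (Sum.inl z) (Sum.inr z) (by
    simp [hH, completeBipartiteGraph])
  set α : ℝ := 1 - 1 / (r : ℝ) with hα
  have h1r : 1 / (r : ℝ) ≤ 1 / 2 := one_div_le_one_div_of_le (by norm_num) hr2
  have h1r0 : 0 < 1 / (r : ℝ) := by positivity
  have hα0 : 0 < α := by linarith
  have hα1 : α ≤ 1 := by linarith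
  have e1 : (1 : ℝ) + α = 2 - 1 / (r : ℝ) := by rw [hα]; ring
  have e2 : 1 / α = (r : ℝ) / ((r : ℝ) - 1) := by
    rw [hα]
    have h3 : (r : ℝ) - 1 ≠ 0 := by
      have : (0 : ℝ) < (r : ℝ) - 1 := by linarith
      exact this.ne'
    field_simp
  have hF : ∀ n : ℕ, 1 ≤ n → hP.F n ≤ (2 * r) * (n : ℝ) ^ (1 + α) := by
    intro n hn
    have h2 := kst_bound (hP.best n) r (by omega) (hP.best_P n) (by
      rw [Fintype.card_fin]; exact hn)
    rw [Fintype.card_fin, ← ee_degree, ← e1] at h2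
    exact h2
  have key : (∃ c : ℝ, 0 < c ∧ ∃ N : ℕ, ∀ n : ℕ, N ≤ n → c * (n : ℝ) ^ (1 + α) ≤ hP.F n) ↔
      ExpForm (FreeCls H) α := by
    constructor
    · rintro ⟨c, hc, N, hN⟩
      exact hP.expForm α (2 * r) hα0 hα1 (by positivity) hF c hc N hN
    · intro h
      exact hP.lower_of_expForm (fun m n hm G hG =>
        copG_free H (kst_preconnected r (by omega)) m n hm G hG) α hα0 h
  have e3 : (∃ c : ℝ, 0 < c ∧ ∀ᶠ n : ℕ in Filter.atTop, c * (n : ℝ) ^ (2 - 1 / (r : ℝ)) ≤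
      (SimpleGraph.extremalNumber n H : ℝ)) ↔
      ∃ c : ℝ, 0 < c ∧ ∃ N : ℕ, ∀ n : ℕ, N ≤ n → c * (n : ℝ) ^ (1 + α) ≤ hP.F n := by
    simp only [freeCls_F, e1, Filter.eventually_atTop]
    constructor
    · rintro ⟨c, hc, N, hN⟩
      refine ⟨2 * c, by positivity, N, fun n hn => ?_⟩
      have := hN n hn
      linarith
    · rintro ⟨c, hc, N, hN⟩
      refine ⟨c / 2, by positivity, N, fun n hn => ?_⟩
      have := hN n hn
      linarith
  rw [e3, key]
  unfold ExpForm
  rw [e2]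
  exact Iff.rfl

end Pool.Agent.Results.MP_a4c586_co.ExpanderForm
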